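import Pool.Agent.H46.MatchMatD

/-!
# Transversal matroids that are strict matching matroids

Let `M` be a transversal matroid on a finite set `V`, of rank `r`, with `c` coloops and corank
`r' = |V| - r`. Let `s` be the number of series classes of `M` with the coloops deleted, and `s'`
the number of those of even size (a loop is a series class of size one). We prove that `M` is the
matching matroid of a graph on `V` if and only if `r` is even and `s + s' ≤ r' + c`.
-/

set_option autoImplicit false

universe u

namespace Pool.Agent.Results.MP_f8b95a_co.StrictMatching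

open Pool.Agent.H46.MatchMat

/-- `M` is transversal: there is a finite family `A 0, ..., A (m - 1)` of sets whose partial
transversals are exactly the independent sets of `M`. A partial transversal is a set `I` whose
elements `x` can be assigned pairwise distinct indices `g x` with `x ∈ A (g x)`. -/
def IsTransversal {V : Type u} (M : Matroid V) : Prop :=
  ∃ (m : ℕ) (A : Fin m → Set V), ∀ I : Set V,
    M.Indep I ↔ ∃ g : I → Fin m, Function.Injective g ∧ ∀ x : I, (x : V) ∈ A (g x)

/-- `M` (with ground set the whole type `V`) is isomorphic, by a bijection `e : W ≃ V`, to the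
matching matroid of a graph `G` with vertex set `W`: a set of vertices is independent iff it is
covered by a matching of `G`. -/
def IsStrictMatching {V : Type u} (M : Matroid V) : Prop :=
  ∃ (W : Type u) (G : SimpleGraph W) (e : W ≃ V), ∀ I : Set W,
    M.Indep (e '' I) ↔ ∃ S : G.Subgraph, S.IsMatching ∧ I ⊆ S.verts

/-- The series classes of `M` with its coloops deleted: the series class of a non-coloop `x`
consists of `x` and of all `y` such that `{x, y}` is a cocircuit. -/
def seriesClasses {V : Type u} (M : Matroid V) : Set (Set V) :=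
  {P | ∃ x, ¬ M.IsColoop x ∧ P = {y | x = y ∨ M.IsCocircuit {x, y}}}

section

variable {V : Type u}

theorem base_iff_mat [Fintype V] [DecidableEq V] (M : Matroid V) :
    IsMat (fun B : Finset V => M.IsBase (B : Set V)) M.eRank.toNat := by
  classical
  refine ⟨?_, ?_, ?_⟩
  · obtain ⟨B, hB⟩ := M.exists_isBase
    refine ⟨B.toFinite.toFinset, ?_⟩
    rw [Set.Finite.coe_toFinset]
    exact hB
  · intro B hB
    have h := hB.encard_eq_eRank
    rw [← h, Set.encard_coe_eq_coe_finsetCard]
    rfl
  · intro B B' hB hB' e he he'
    obtain ⟨f, hf, hb⟩ := hB.exchange hB' (⟨by exact_mod_cast he, by exact_mod_cast he'⟩ :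
      e ∈ (B : Set V) \ (B' : Set V))
    refine ⟨f, by exact_mod_cast hf.1, by exact_mod_cast hf.2, ?_⟩
    push_cast
    exact hb

theorem indep_iff [Fintype V] (M : Matroid V) (S : Finset V) :
    (∃ B : Finset V, M.IsBase (B : Set V) ∧ S ⊆ B) ↔ M.Indep (S : Set V) := by
  classical
  constructor
  · rintro ⟨B, hB, hSB⟩
    exact hB.indep.subset (by exact_mod_cast hSB)
  · intro h
    obtain ⟨B, hB, hSB⟩ := h.exists_isBase_superset
    refine ⟨B.toFinite.toFinset, by rw [Set.Finite.coe_toFinset]; exact hB, ?_⟩
    intro x hx
    rw [Set.Finite.mem_toFinset]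
    exact hSB (by exact_mod_cast hx)

theorem D_iff [Fintype V] [DecidableEq V] (M : Matroid V) (x : V) :
    D (fun B : Finset V => M.IsBase (B : Set V)) x ↔ ¬ M.IsColoop x := by
  classical
  rw [Matroid.isColoop_iff_forall_mem_isBase]
  push Not
  constructor
  · rintro ⟨B, hB, hx⟩
    exact ⟨B, hB, by exact_mod_cast hx⟩
  · rintro ⟨B, hB, hx⟩
    refine ⟨B.toFinite.toFinset, ?_, ?_⟩
    · change M.IsBase ((B.toFinite.toFinset : Finset V) : Set V)
      rw [Set.Finite.coe_toFinset]
      exact hB
    · rw [Set.Finite.mem_toFinset]
      exact hx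

theorem R_iff [Fintype V] [DecidableEq V] (M : Matroid V) (x y : V) (hx : ¬ M.IsColoop x) :
    R (fun B : Finset V => M.IsBase (B : Set V)) x y ↔ (x = y ∨ M.IsCocircuit {x, y}) := by
  classical
  have hcov : ∀ P : V → V → Prop, (∀ B : Finset V, M.IsBase (B : Set V) → x ∈ B ∨ y ∈ B) ↔
      (∀ B : Set V, M.IsBase B → x ∈ B ∨ y ∈ B) := by
    intro _
    constructor
    · intro h B hB
      have := h B.toFinite.toFinset (by rw [Set.Finite.coe_toFinset]; exact hB)
      rw [Set.Finite.mem_toFinset, Set.Finite.mem_toFinset] at this
      exact this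
    · intro h B hB
      have := h B hB
      exact_mod_cast this
  constructor
  · rintro ⟨_, hy, h | h⟩
    · exact Or.inl h
    · by_cases hxy : x = y
      · exact Or.inl hxy
      right
      rw [Matroid.isCocircuit_iff_minimal]
      have h' := (hcov (fun _ _ => True)).mp h
      refine ⟨?_, ?_⟩
      · intro B hB
        rcases h' B hB with h1 | h1
        · exact ⟨x, by simp, h1⟩
        · exact ⟨y, by simp, h1⟩
      · intro X hX hXsub
        have hx' := hx
        rw [D_iff] at hy
        rw [Matroid.isColoop_iff_forall_mem_isBase] at hx' hy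
        push Not at hx' hy
        intro z hz
        simp only [Set.mem_insert_iff, Set.mem_singleton_iff] at hz
        rcases hz with rfl | rfl
        · obtain ⟨B, hB, hyB⟩ := hy
          obtain ⟨w, hw, hwB⟩ := hX B hB
          have := hXsub hw
          simp only [Set.mem_insert_iff, Set.mem_singleton_iff] at this
          rcases this with rfl | rfl
          · exact hw
          · exact absurd hwB hyB
        · obtain ⟨B, hB, hyB⟩ := hx'
          obtain ⟨w, hw, hwB⟩ := hX B hB
          have := hXsub hw
          simp only [Set.mem_insert_iff, Set.mem_singleton_iff] at this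
          rcases this with rfl | rfl
          · exact absurd hwB hyB
          · exact hw
  · intro h
    have hxD := (D_iff M x).mpr hx
    rcases h with rfl | h
    · exact R_refl hxD
    by_cases hxy : x = y
    · rw [← hxy]; exact R_refl hxD
    rw [Matroid.isCocircuit_iff_minimal] at h
    refine ⟨hxD, ?_, Or.inr ?_⟩
    · rw [D_iff]
      intro hy
      rw [Matroid.isColoop_iff_forall_mem_isBase] at hy
      have h1 : (({x, y} : Set V)) ≤ {y} := h.2 (y := {y}) (by
        intro B hB
        exact ⟨y, rfl, hy hB⟩) (by
        intro z hz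
        simp only [Set.mem_singleton_iff] at hz
        simp [hz])
      have h2 : x ∈ ({y} : Set V) := h1 (by simp)
      exact hxy h2
    · rw [hcov (fun _ _ => True)]
      intro B hB
      obtain ⟨w, hw, hwB⟩ := h.1 B hB
      simp only [Set.mem_insert_iff, Set.mem_singleton_iff] at hw
      rcases hw with rfl | rfl
      · exact Or.inl hwB
      · exact Or.inr hwB

theorem classes_eq [Fintype V] [DecidableEq V] (M : Matroid V) :
    seriesClasses M = (fun P : Finset V => (P : Set V)) ''
      (classes (fun B : Finset V => M.IsBase (B : Set V)) : Set (Finset V)) := by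
  classical
  ext P
  simp only [seriesClasses, Set.mem_image, Finset.mem_coe]
  constructor
  · rintro ⟨x, hx, rfl⟩
    refine ⟨cl _ x, cl_mem_classes ((D_iff M x).mpr hx), ?_⟩
    ext y
    rw [Finset.mem_coe, mem_cl, R_iff M x y hx]
    rfl
  · rintro ⟨Q, hQ, rfl⟩
    obtain ⟨x, hx, rfl⟩ := mem_classes.mp hQ
    have hx' := (D_iff M x).mp hx
    refine ⟨x, hx', ?_⟩
    ext y
    rw [Finset.mem_coe, mem_cl, R_iff M x y hx']
    rfl

theorem coe_inj : Function.Injective (fun P : Finset V => (P : Set V)) :=
  fun _ _ h => Finset.coe_injective h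

theorem ncard_classes [Fintype V] [DecidableEq V] (M : Matroid V) :
    (seriesClasses M).ncard =
      (classes (fun B : Finset V => M.IsBase (B : Set V))).card := by
  rw [classes_eq, Set.ncard_image_of_injective _ coe_inj, Set.ncard_coe_finset]

theorem ncard_even_classes [Fintype V] [DecidableEq V] (M : Matroid V) :
    {P ∈ seriesClasses M | Even P.ncard}.ncard =
      ((classes (fun B : Finset V => M.IsBase (B : Set V))).filter
        (fun P => Even P.card)).card := by
  classical
  have : {P ∈ seriesClasses M | Even P.ncard} = (fun P : Finset V => (P : Set V)) ''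
      ((classes (fun B : Finset V => M.IsBase (B : Set V))).filter
        (fun P => Even P.card) : Finset (Finset V)) := by
    rw [classes_eq]
    ext P
    simp only [Set.mem_image, Finset.mem_coe, Finset.coe_filter]
    constructor
    · rintro ⟨⟨Q, hQ, rfl⟩, hev⟩
      rw [Set.ncard_coe_finset] at hev
      exact ⟨Q, ⟨hQ, hev⟩, rfl⟩
    · rintro ⟨Q, ⟨hQ, hev⟩, rfl⟩
      refine ⟨⟨Q, hQ, rfl⟩, ?_⟩
      rw [Set.ncard_coe_finset]
      exact hev
  rw [this, Set.ncard_image_of_injective _ coe_inj, Set.ncard_coe_finset]

theorem ncard_coloops [Fintype V] [DecidableEq V] (M : Matroid V) :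
    M.coloops.ncard = (CC (fun B : Finset V => M.IsBase (B : Set V))).card := by
  classical
  rw [← Set.ncard_coe_finset]
  congr 1
  ext x
  rw [Finset.mem_coe, mem_CC, D_iff, not_not]
  rfl

theorem corank_eq [Fintype V] [DecidableEq V] (M : Matroid V) (hE : M.E = Set.univ) :
    M✶.eRank.toNat = Fintype.card V - M.eRank.toNat := by
  classical
  obtain ⟨B, hB⟩ := M.exists_isBase
  have h1 := hB.encard_eq_eRank
  have h2 := hB.compl_isBase_dual.encard_eq_eRank
  rw [← h1, ← h2, hE]
  have h3 : (Set.univ \ B).ncard + B.ncard = Fintype.card V := by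
    rw [← Nat.card_eq_fintype_card, ← Set.ncard_univ]
    exact Set.ncard_sdiff_add_ncard_of_subset (Set.subset_univ B)
  have h4 : (Set.univ \ B).encard.toNat = (Set.univ \ B).ncard := rfl
  have h5 : B.encard.toNat = B.ncard := rfl
  omega

end

theorem result {V : Type u} [Finite V] (M : Matroid V) (hE : M.E = Set.univ)
    (hT : IsTransversal M) :
    IsStrictMatching M ↔
      Even M.eRank.toNat ∧
      (seriesClasses M).ncard + {P ∈ seriesClasses M | Even P.ncard}.ncard
        ≤ M✶.eRank.toNat + M.coloops.ncard := by
  classical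
  have := Fintype.ofFinite V
  set Bas : Finset V → Prop := fun B => M.IsBase (B : Set V) with hBas
  have H : IsMat Bas M.eRank.toNat := base_iff_mat M
  have hI : ∀ S : Finset V, (∃ B, Bas B ∧ S ⊆ B) ↔ M.Indep (S : Set V) := indep_iff M
  rw [ncard_classes, ncard_even_classes, ncard_coloops, corank_eq M hE]
  constructor
  · rintro ⟨W, G, e, hG⟩
    -- transport the graph to `V`
    let G' : SimpleGraph V := G.comap e.symm
    have hadj : ∀ a b, G'.Adj a b ↔ G.Adj (e.symm a) (e.symm b) := fun a b => Iff.rfl
    have hG' : ∀ S : Finset V, (∃ B, Bas B ∧ S ⊆ B) ↔ ∃ f, MF G' f ∧ ∀ v ∈ S, f v ≠ v := by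
      intro S
      rw [hI S]
      have h1 : (S : Set V) = e '' (e.symm '' (S : Set V)) := by
        rw [← Set.image_comp]; simp
      rw [h1, hG]
      constructor
      · rintro ⟨T, hT1, hT2⟩
        obtain ⟨f, hf, hfT⟩ := exists_MF_of_matching T hT1
        refine ⟨fun v => e (f (e.symm v)), ⟨?_, ?_⟩, ?_⟩
        · intro v
          simp [hf.1]
        · intro v hv
          rw [hadj]
          have : f (e.symm v) ≠ e.symm v := by
            intro h; apply hv
            change e (f (e.symm v)) = v
            rw [h]; simp
          simpa using hf.2 _ this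
        · intro v hv h
          have h2 : e.symm v ∈ T.verts := hT2 ⟨v, by exact_mod_cast hv, rfl⟩
          apply (hfT _).mpr h2
          have h3 := congrArg e.symm h
          simpa using h3
      · rintro ⟨f, hf, hfS⟩
        refine ⟨{ verts := {w | f (e w) ≠ e w}
                  Adj := fun a b => f (e a) = e b ∧ e a ≠ e b
                  adj_sub := ?_
                  edge_vert := ?_
                  symm := ?_ }, ?_, ?_⟩
        · rintro a b ⟨h1, h2⟩
          have h3 : f (e a) ≠ e a := by rw [h1]; exact fun h => h2 h.symm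
          have h4 := hf.2 _ h3
          rw [hadj, h1] at h4
          simpa using h4
        · rintro a b ⟨h1, h2⟩
          change f (e a) ≠ e a
          rw [h1]; exact fun h => h2 h.symm
        · constructor
          rintro a b ⟨h1, h2⟩
          refine ⟨?_, fun h => h2 h.symm⟩
          rw [← h1, hf.1]
        · intro a ha
          have ha' : f (e a) ≠ e a := ha
          refine ⟨e.symm (f (e a)), ⟨by simp, ?_⟩, ?_⟩
          · simpa using fun h => ha' h.symm
          · rintro b ⟨h1, _⟩
            rw [h1]; simp
        · rintro w ⟨v, hv, rfl⟩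
          change f (e (e.symm v)) ≠ e (e.symm v)
          simpa using hfS v (by exact_mod_cast hv)
    exact core_onlyif H hG'
  · rintro ⟨hr, hc⟩
    obtain ⟨m, A, hA⟩ := hT
    have hA' : ∀ S : Finset V, (∃ B, Bas B ∧ S ⊆ B) ↔
        ∃ g : V → Option (Fin m), Set.InjOn g S ∧ ∀ v ∈ S,
          (fun (j : Option (Fin m)) (v : V) => ∃ i, j = some i ∧ v ∈ A i) (g v) v := by
      intro S
      rw [hI S, hA]
      constructor
      · rintro ⟨g, hg, hgA⟩
        refine ⟨fun v => if h : v ∈ (S : Set V) then some (g ⟨v, h⟩) else none, ?_, ?_⟩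
        · intro a ha b hb hab
          simp only [dif_pos ha, dif_pos hb, Option.some.injEq] at hab
          exact congrArg Subtype.val (hg hab)
        · intro v hv
          have hv' : v ∈ (S : Set V) := by exact_mod_cast hv
          exact ⟨g ⟨v, hv'⟩, by simp only [dif_pos hv'], hgA ⟨v, hv'⟩⟩
      · rintro ⟨g, hg, hgA⟩
        have hch : ∀ v : (S : Set V), ∃ i, g v = some i ∧ (v : V) ∈ A i :=
          fun v => hgA v (by exact_mod_cast v.2)
        choose k hk hkA using hch
        refine ⟨k, ?_, hkA⟩
        intro a b hab
        apply Subtype.ext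
        apply hg a.2 b.2
        rw [hk, hk, hab]
    obtain ⟨G, hG⟩ := core_if (A := fun (j : Option (Fin m)) (v : V) => ∃ i, j = some i ∧ v ∈ A i)
      H hA' hr hc
    refine ⟨V, G, Equiv.refl V, fun I => ?_⟩
    have h1 : (Equiv.refl V) '' I = ((I.toFinite.toFinset : Finset V) : Set V) := by
      rw [Set.Finite.coe_toFinset, Equiv.coe_refl, Set.image_id]
    rw [h1, ← hI, hG, Set.Finite.coe_toFinset]

end Pool.Agent.Results.MP_f8b95a_co.StrictMatching
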